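import Mathlib

set_option autoImplicit false

/-! A Knaster type continuum `T` (inverse limit of a 12-lap tent map) with an embedded Cantor set
`q y`, `y : ℕ → Fin 3`, such that removing any nonempty open set from `T` allows one to read off
any digit of `y` by a continuous function. -/

namespace Pool.Agent.Lib.MP_1501ba_gt

open Topology Filter Set

/-- triangle wave of period 2 -/
noncomputable def tri (x : ℝ) : ℝ := ‖(x : AddCircle (2 : ℝ))‖

lemma continuous_tri : Continuous tri :=
  continuous_norm.comp (AddCircle.continuous_mk' (2 : ℝ))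

lemma tri_nonneg (x : ℝ) : 0 ≤ tri x := norm_nonneg _

lemma tri_le_one (x : ℝ) : tri x ≤ 1 := by
  have := AddCircle.norm_le_half_period (2 : ℝ) (x := (x : AddCircle (2 : ℝ))) two_ne_zero
  simpa [tri] using this

lemma tri_of_mem {x : ℝ} (h0 : 0 ≤ x) (h1 : x ≤ 1) : tri x = x := by
  have := (AddCircle.norm_coe_eq_abs_iff (2 : ℝ) (x := x) two_ne_zero).2
    (by rw [abs_of_nonneg h0]; simpa using h1)
  rw [tri, this, abs_of_nonneg h0]

lemma tri_add_int (x : ℝ) (m : ℤ) : tri (x + m * 2) = tri x := by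
  unfold tri
  congr 1
  rw [AddCircle.coe_add]
  have : ((m * 2 : ℝ) : AddCircle (2 : ℝ)) = 0 := by
    rw [AddCircle.coe_eq_zero_iff]
    exact ⟨m, by simp⟩
  rw [this, add_zero]

lemma tri_neg (x : ℝ) : tri (-x) = tri x := by
  unfold tri
  rw [AddCircle.coe_neg, norm_neg]

lemma tri_mul_tri (v : ℝ) : tri (12 * tri v) = tri (12 * v) := by
  have h := AddCircle.norm_eq (2 : ℝ) (x := v)
  have h' : tri v = |v - round ((2 : ℝ)⁻¹ * v) * 2| := h
  set k := round ((2 : ℝ)⁻¹ * v) with hk
  rw [h']
  rcases abs_choice (v - (k : ℝ) * 2) with h1 | h1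
  · rw [h1]
    have : 12 * (v - (k : ℝ) * 2) = 12 * v + ((-12 * k : ℤ) : ℝ) * 2 := by push_cast; ring
    rw [this, tri_add_int]
  · rw [h1]
    have : 12 * -(v - (k : ℝ) * 2) = -(12 * v) + ((12 * k : ℤ) : ℝ) * 2 := by push_cast; ring
    rw [this, tri_add_int, tri_neg]

/-- The continuum `T`. -/
def T : Set (ℕ → ℝ) := {x | ∀ n, x n = tri (12 * x (n + 1))}

lemma T_mem_Icc {x : ℕ → ℝ} (hx : x ∈ T) (n : ℕ) : x n ∈ Icc (0 : ℝ) 1 := by
  rw [hx n]; exact ⟨tri_nonneg _, tri_le_one _⟩

lemma isClosed_T : IsClosed T := by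
  have : T = ⋂ n, {x : ℕ → ℝ | x n = tri (12 * x (n + 1))} := by
    ext x; simp [T]
  rw [this]
  refine isClosed_iInter fun n => isClosed_eq (continuous_apply n) ?_
  exact continuous_tri.comp (continuous_const.mul (continuous_apply (n + 1)))

lemma isCompact_T : IsCompact T := by
  refine (isCompact_univ_pi (fun _ : ℕ => isCompact_Icc (a := (0 : ℝ)) (b := 1))).of_isClosed_subset
    isClosed_T ?_
  intro x hx n _
  exact T_mem_Icc hx n

/-- if two points of `T` have the same `n`-th coordinate, then all coordinates up to `n` agree -/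
lemma T_agree {x y : ℕ → ℝ} (hx : x ∈ T) (hy : y ∈ T) (n : ℕ) (h : x n = y n) :
    ∀ i ≤ n, x i = y i := by
  induction n with
  | zero => intro i hi; obtain rfl : i = 0 := by omega
            exact h
  | succ n ih =>
    intro i hi
    rcases Nat.lt_or_ge i (n + 1) with h1 | h1
    · exact ih (by rw [hx n, hy n, h]) i (by omega)
    · obtain rfl : i = n + 1 := by omega
      exact h

/-- the dense line -/
noncomputable def line (u : ℝ) : ℕ → ℝ := fun n => tri (u / 12 ^ n)

lemma line_mem (u : ℝ) : line u ∈ T := by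
  intro n
  simp only [line]
  rw [tri_mul_tri]
  congr 1
  rw [pow_succ]
  field_simp

lemma continuous_line : Continuous line :=
  continuous_pi fun _ => continuous_tri.comp (continuous_id.div_const _)

lemma T_eq_closure : T = closure (range line) := by
  apply Subset.antisymm
  · intro x hx
    rw [mem_closure_iff_clusterPt]
    have htend : Tendsto (fun n : ℕ => line (12 ^ n * x n)) atTop (𝓝 x) := by
      rw [tendsto_pi_nhds]
      intro i
      refine tendsto_const_nhds.congr' ?_
      filter_upwards [eventually_ge_atTop i] with n hn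
      refine T_agree hx (line_mem _) n ?_ i hn
      have hn' := T_mem_Icc hx n
      simp only [line]
      rw [mul_div_cancel_left₀ _ (by positivity), tri_of_mem hn'.1 hn'.2]
    rw [← mem_closure_iff_clusterPt]
    exact mem_closure_of_tendsto htend (Eventually.of_forall fun n => mem_range_self _)
  · exact closure_minimal (range_subset_iff.2 line_mem) isClosed_T

lemma isPreconnected_T : IsPreconnected T := by
  rw [T_eq_closure]
  exact (isPreconnected_range continuous_line).closure

/-- index of the digit used at stage `n` -/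
def φ (n : ℕ) : ℕ := (Nat.unpair n).1

/-- the embedded Cantor set -/
noncomputable def q (y : ℕ → Fin 3) : ℕ → ℝ
  | 0 => 0
  | n + 1 => (4 * ((y (φ n) : ℕ) : ℝ) + q y n) / 12

lemma q_succ (y : ℕ → Fin 3) (n : ℕ) :
    q y (n + 1) = (4 * ((y (φ n) : ℕ) : ℝ) + q y n) / 12 := rfl

lemma fin3_le (a : Fin 3) : ((a : ℕ) : ℝ) ≤ 2 := by
  have : (a : ℕ) ≤ 2 := by omega
  exact_mod_cast this

lemma q_mem_Icc (y : ℕ → Fin 3) (n : ℕ) : q y n ∈ Icc (0 : ℝ) 1 := by
  induction n with
  | zero => simp [q]
  | succ n ih =>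
    rw [q_succ]
    have h1 := fin3_le (y (φ n))
    have h0 : (0 : ℝ) ≤ ((y (φ n) : ℕ) : ℝ) := Nat.cast_nonneg _
    constructor
    · have := ih.1; positivity
    · have := ih.2; linarith

lemma q_mem (y : ℕ → Fin 3) : q y ∈ T := by
  intro n
  rw [q_succ]
  have h1 : 12 * ((4 * ((y (φ n) : ℕ) : ℝ) + q y n) / 12)
      = q y n + ((2 * (y (φ n) : ℕ) : ℤ) : ℝ) * 2 := by push_cast; ring
  rw [h1, tri_add_int, tri_of_mem (q_mem_Icc y n).1 (q_mem_Icc y n).2]

lemma continuous_q : Continuous q := by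
  refine continuous_pi fun n => ?_
  induction n with
  | zero => exact continuous_const
  | succ n ih =>
    have h : Continuous fun y : ℕ → Fin 3 => ((y (φ n) : ℕ) : ℝ) :=
      (continuous_of_discreteTopology (f := fun a : Fin 3 => ((a : ℕ) : ℝ))).comp
        (continuous_apply (φ n))
    exact ((continuous_const.mul h).add ih).div_const _

/-- real-valued digit functions -/
noncomputable def ν (n : ℕ) (x : ℕ → ℝ) : ℝ := (12 * x (Nat.pair n 0 + 1) - x (Nat.pair n 0)) / 4

lemma ν_q (n : ℕ) (y : ℕ → Fin 3) : ν n (q y) = ((y n : ℕ) : ℝ) := by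
  unfold ν
  rw [q_succ]
  simp only [φ, Nat.unpair_pair]
  ring

lemma continuous_ν (n : ℕ) : Continuous (ν n) := by
  unfold ν
  exact ((continuous_const.mul (continuous_apply (Nat.pair n 0 + 1))).sub
    (continuous_apply (Nat.pair n 0))).div_const _

lemma q_injective : Function.Injective q := by
  intro y y' h
  funext n
  have h1 := ν_q n y
  have h2 := ν_q n y'
  rw [h, h2] at h1
  have : (y' n : ℕ) = (y n : ℕ) := by exact_mod_cast h1
  exact (Fin.ext this).symm

lemma exists_large_stage (k N : ℕ) : ∃ n, N ≤ n ∧ φ n = k :=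
  ⟨Nat.pair k N, Nat.right_le_pair k N, by simp [φ]⟩

/-- Removing a nonempty relatively open set from `T`, one can read off the digit `k`. -/
lemma digit_function (k : ℕ) (U : Set (ℕ → ℝ)) (hU : IsOpen U) (x₀ : ℕ → ℝ) (hx₀ : x₀ ∈ T)
    (hxU : x₀ ∈ U) :
    ∃ r : (ℕ → ℝ) → ℤ, ContinuousOn r (T \ U) ∧ ∀ y, r (q y) = ((y k : ℕ) : ℤ) := by
  -- a basic neighbourhood
  obtain ⟨N, hN⟩ : ∃ N : ℕ, ∀ x ∈ T, (∀ i ≤ N, x i = x₀ i) → x ∈ U := by
    have h1 := hU.mem_nhds hxU
    rw [nhds_pi, Filter.mem_pi'] at h1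
    obtain ⟨I, t, ht, hsub⟩ := h1
    obtain ⟨N, hN⟩ := I.bddAbove
    refine ⟨N, fun x _ hx => hsub ?_⟩
    intro i hi
    rw [hx i (hN hi)]
    exact mem_of_mem_nhds (ht i)
  obtain ⟨n, hn, hφ⟩ := exists_large_stage k N
  set o := x₀ n with ho
  have ho' : o ∈ Icc (0 : ℝ) 1 := T_mem_Icc hx₀ n
  refine ⟨fun x => ⌊(12 * x (n + 1) + 2 - o) / 4⌋, ?_, ?_⟩
  · intro x hx
    have hne : ∀ j : ℤ, (12 * x (n + 1) + 2 - o) / 4 ≠ j := by
      intro j hj
      apply hx.2
      refine hN x hx.1 ?_
      have h1 : x n = x₀ n := by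
        rw [hx.1 n]
        have : 12 * x (n + 1) = o + ((2 * j - 1 : ℤ) : ℝ) * 2 := by
          push_cast
          linarith
        rw [this, tri_add_int, tri_of_mem ho'.1 ho'.2]
      intro i hi
      exact T_agree hx.1 hx₀ n h1 i (hi.trans hn)
    have hcont : ContinuousAt (fun x : ℕ → ℝ => (12 * x (n + 1) + 2 - o) / 4) x := by
      have : Continuous fun x : ℕ → ℝ => (12 * x (n + 1) + 2 - o) / 4 :=
        (((continuous_const.mul (continuous_apply (n + 1))).add continuous_const).sub
          continuous_const).div_const _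
      exact this.continuousAt
    refine ContinuousAt.continuousWithinAt ?_
    -- the floor is locally constant away from the integers
    set a := (12 * x (n + 1) + 2 - o) / 4 with ha
    have hlt : (⌊a⌋ : ℝ) < a := lt_of_le_of_ne (Int.floor_le a) (fun h => hne _ h.symm)
    have hlt' : a < ⌊a⌋ + 1 := Int.lt_floor_add_one a
    have hev : ∀ᶠ z in 𝓝 x, ⌊(12 * z (n + 1) + 2 - o) / 4⌋ = ⌊a⌋ := by
      filter_upwards [hcont.eventually (Ioo_mem_nhds hlt hlt')] with z hz
      rw [Int.floor_eq_iff]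
      exact ⟨hz.1.le, hz.2⟩
    exact (continuousAt_const (y := ⌊a⌋)).congr (hev.mono fun z hz => hz.symm)
  · intro y
    simp only
    rw [q_succ, hφ]
    have h := q_mem_Icc y n
    rw [Int.floor_eq_iff]
    push_cast
    constructor
    · have := h.1; have := ho'.2; linarith
    · have := h.2; have := ho'.1; linarith

lemma line_one_not_mem : line 1 ∉ range q := by
  rintro ⟨y, hy⟩
  have h := congrFun hy 0
  simp only [q, line, pow_zero, div_one] at h
  rw [tri_of_mem zero_le_one le_rfl] at h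
  exact zero_ne_one h

end Pool.Agent.Lib.MP_1501ba_gt
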