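import Mathlib
import Pool.Agent.Lib.MP_1501ba_gt.Knaster

set_option autoImplicit false

/-! The ternary Cantor space, the gluing functions and the continuum `M`. -/

namespace Pool.Agent.Lib.MP_1501ba_gt

open Topology Filter Set

/-- ternary sequences -/
abbrev Cant := ℕ → Fin 3

/-- value of the `n`-th tail of a ternary sequence -/
noncomputable def τ (n : ℕ) (c : Cant) : ℝ := Real.ofDigits (fun i => c (i + n))

lemma τ_nonneg (n : ℕ) (c : Cant) : 0 ≤ τ n c := Real.ofDigits_nonneg _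

lemma τ_le_one (n : ℕ) (c : Cant) : τ n c ≤ 1 := Real.ofDigits_le_one _

lemma τ_succ (n : ℕ) (c : Cant) : τ n c = (((c n : ℕ) : ℝ) + τ (n + 1) c) / 3 := by
  unfold τ
  rw [Real.ofDigits_eq_sum_add_ofDigits (fun i => c (i + n)) 1]
  simp only [Finset.range_one, Finset.sum_singleton, Real.ofDigitsTerm, zero_add, pow_one]
  have : (fun i => c (i + 1 + n)) = fun i => c (i + (n + 1)) := by
    funext i; congr 1; ring
  rw [this]
  push_cast
  ring

lemma continuous_τ (n : ℕ) : Continuous (τ n) := by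
  unfold τ
  exact Real.continuous_ofDigits.comp (continuous_pi fun i => continuous_apply (i + n))

lemma fin3_cases (a : Fin 3) : a = 0 ∨ a = 1 ∨ a = 2 := by
  revert a; decide

lemma τ_one {n : ℕ} {c : Cant} (h : τ n c = 1) : c n = 2 ∧ τ (n + 1) c = 1 := by
  rw [τ_succ] at h
  have h1 := τ_le_one (n + 1) c
  rcases fin3_cases (c n) with h2 | h2 | h2 <;> rw [h2] at h
  · norm_num at h; linarith
  · norm_num at h; linarith
  · norm_num at h; exact ⟨h2, by linarith⟩

lemma τ_zero {n : ℕ} {c : Cant} (h : τ n c = 0) : c n = 0 ∧ τ (n + 1) c = 0 := by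
  rw [τ_succ] at h
  have h1 := τ_nonneg (n + 1) c
  rcases fin3_cases (c n) with h2 | h2 | h2 <;> rw [h2] at h
  · norm_num at h; exact ⟨h2, by linarith⟩
  · norm_num at h; linarith
  · norm_num at h; linarith

lemma τ_one_tail {n : ℕ} {c : Cant} (h : τ n c = 1) : ∀ i, n ≤ i → c i = 2 := by
  have : ∀ k, τ (n + k) c = 1 := by
    intro k
    induction k with
    | zero => exact h
    | succ k ih => exact (τ_one ih).2
  intro i hi
  obtain ⟨k, rfl⟩ := Nat.exists_eq_add_of_le hi
  exact (τ_one (this k)).1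

lemma τ_zero_tail {n : ℕ} {c : Cant} (h : τ n c = 0) : ∀ i, n ≤ i → c i = 0 := by
  have : ∀ k, τ (n + k) c = 0 := by
    intro k
    induction k with
    | zero => exact h
    | succ k ih => exact (τ_zero ih).2
  intro i hi
  obtain ⟨k, rfl⟩ := Nat.exists_eq_add_of_le hi
  exact (τ_zero (this k)).1

lemma τ_of_tail_zero {n : ℕ} {c : Cant} (h : ∀ i, n ≤ i → c i = 0) : τ n c = 0 := by
  unfold τ
  have : (fun i => c (i + n)) = fun _ => (0 : Fin 3) := by
    funext i; exact h _ (by omega)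
  rw [this]
  simp [Real.ofDigits, Real.ofDigitsTerm]

lemma τ_of_tail_two {n : ℕ} {c : Cant} (h : ∀ i, n ≤ i → c i = 2) : τ n c = 1 := by
  unfold τ
  have : (fun i => c (i + n)) = fun _ => (Fin.last 2) := by
    funext i; exact h _ (by omega)
  rw [this]
  exact Real.ofDigits_const_last_eq_one 2

/-- equality of tails propagates upwards -/
lemma τ_up {j : ℕ} {c c' : Cant} (h : τ j c = τ j c') (hd : ∀ i < j, c i = c' i) :
    ∀ n ≤ j, τ n c = τ n c' := by
  induction j with
  | zero => intro n hn; obtain rfl : n = 0 := by omega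
            exact h
  | succ j ih =>
    have h1 : τ j c = τ j c' := by rw [τ_succ j c, τ_succ j c', hd j (by omega), h]
    intro n hn
    rcases Nat.lt_or_ge n (j + 1) with h2 | h2
    · exact ih h1 (fun i hi => hd i (by omega)) n (by omega)
    · obtain rfl : n = j + 1 := by omega
      exact h

/-- equality of tails propagates downwards along equal digits -/
lemma τ_down {n : ℕ} {c c' : Cant} (h : τ n c = τ n c') (k : ℕ)
    (hd : ∀ i, n ≤ i → i < n + k → c i = c' i) : τ (n + k) c = τ (n + k) c' := by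
  induction k with
  | zero => exact h
  | succ k ih =>
    have h1 := ih (fun i hi hi' => hd i hi (by omega))
    rw [τ_succ, τ_succ (n + k) c', hd (n + k) (by omega) (by omega)] at h1
    have : τ (n + k + 1) c = τ (n + k + 1) c' := by linarith
    exact this

/-- the two expansions of a triadic rational -/
structure Jump (j : ℕ) (c c' : Cant) : Prop where
  pre : ∀ i < j, c i = c' i
  at_ : (c j : ℕ) + 1 = (c' j : ℕ)
  two : ∀ i, j < i → c i = 2
  zero : ∀ i, j < i → c' i = 0

lemma eq_or_jump {c c' : Cant} (h : τ 0 c = τ 0 c') :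
    c = c' ∨ ∃ j, Jump j c c' ∨ Jump j c' c := by
  by_cases hcc : c = c'
  · exact Or.inl hcc
  right
  have hne : ∃ j, c j ≠ c' j := by
    by_contra h'
    push Not at h'
    exact hcc (funext h')
  classical
  set j := Nat.find hne with hj
  have hjne : c j ≠ c' j := Nat.find_spec hne
  have hjlt : ∀ i < j, c i = c' i := fun i hi => by
    have := Nat.find_min hne hi
    push Not at this
    exact this
  have hτ : τ j c = τ j c' := by
    have := τ_down h j (fun i _ hi => hjlt i (by omega))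
    simpa using this
  refine ⟨j, ?_⟩
  have h1 := hτ
  rw [τ_succ, τ_succ j c'] at h1
  have a1 := τ_nonneg (j + 1) c
  have a2 := τ_le_one (j + 1) c
  have a3 := τ_nonneg (j + 1) c'
  have a4 := τ_le_one (j + 1) c'
  have hcase : ∀ d d' : Cant, (∀ i < j, d i = d' i) → (d j : ℕ) < (d' j : ℕ) →
      (((d j : ℕ) : ℝ) + τ (j + 1) d) / 3 = (((d' j : ℕ) : ℝ) + τ (j + 1) d') / 3 →
      Jump j d d' := by
    intro d d' hpre hlt heq
    have b1 := τ_le_one (j + 1) d
    have b2 := τ_nonneg (j + 1) d'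
    have hlt' : ((d j : ℕ) : ℝ) + 1 ≤ ((d' j : ℕ) : ℝ) := by exact_mod_cast hlt
    have e1 : τ (j + 1) d = 1 := by linarith
    have e2 : τ (j + 1) d' = 0 := by linarith
    have e3 : ((d j : ℕ) : ℝ) + 1 = ((d' j : ℕ) : ℝ) := by linarith
    exact ⟨hpre, by exact_mod_cast e3, fun i hi => τ_one_tail e1 i hi,
      fun i hi => τ_zero_tail e2 i hi⟩
  rcases lt_or_gt_of_ne (fun h => hjne (Fin.ext h) : (c j : ℕ) ≠ (c' j : ℕ)) with h2 | h2
  · exact Or.inl (hcase c c' hjlt h2 h1)
  · exact Or.inr (hcase c' c (fun i hi => (hjlt i hi).symm) h2 h1.symm)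

/-- the z-shape parameter -/
noncomputable def Z (a t : ℝ) (d : Fin 3) : ℝ :=
  3 * t + (if d = 1 then 2 * a - 3 * t * a * (a - 1) else 0) + (if d = 2 then 2 else 0)

lemma Z_zero (a t : ℝ) : Z a t 0 = 3 * t := by
  unfold Z
  rw [if_neg (by decide), if_neg (by decide)]; ring

lemma Z_one (a t : ℝ) : Z a t 1 = 3 * t + (2 * a - 3 * t * a * (a - 1)) := by
  unfold Z
  rw [if_pos rfl, if_neg (by decide)]; ring

lemma Z_two (a t : ℝ) : Z a t 2 = 3 * t + 2 := by
  unfold Z
  rw [if_neg (by decide), if_pos rfl]; ring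

/-- the coordinates that realise the gluing -/
noncomputable def ζ (n : ℕ) (z : (ℕ → ℝ) × Cant) : ℝ := Z (ν n z.1) (τ n z.2) (z.2 n)

lemma continuous_ζ (n : ℕ) : Continuous (ζ n) := by
  have h1 : Continuous fun z : (ℕ → ℝ) × Cant => ν n z.1 := (continuous_ν n).comp continuous_fst
  have h2 : Continuous fun z : (ℕ → ℝ) × Cant => τ n z.2 := (continuous_τ n).comp continuous_snd
  have h3 : Continuous fun z : (ℕ → ℝ) × Cant => z.2 n := (continuous_apply n).comp continuous_snd
  have h4 : Continuous fun z : (ℕ → ℝ) × Cant => (if z.2 n = 1 then (1 : ℝ) else 0) :=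
    (continuous_of_discreteTopology (f := fun d : Fin 3 => if d = 1 then (1 : ℝ) else 0)).comp h3
  have h5 : Continuous fun z : (ℕ → ℝ) × Cant => (if z.2 n = 2 then (2 : ℝ) else 0) :=
    (continuous_of_discreteTopology (f := fun d : Fin 3 => if d = 2 then (2 : ℝ) else 0)).comp h3
  have h6 : ζ n = fun z => 3 * τ n z.2 + (if z.2 n = 1 then (1 : ℝ) else 0) *
      (2 * ν n z.1 - 3 * τ n z.2 * ν n z.1 * (ν n z.1 - 1)) + (if z.2 n = 2 then (2 : ℝ) else 0) := by
    funext z
    unfold ζ Z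
    split_ifs <;> ring
  rw [h6]
  fun_prop

lemma isCompact_range_q : IsCompact (range q) := isCompact_range continuous_q

lemma exists_δ : ∃ δ : (ℕ → ℝ) → ℝ, Continuous δ ∧ ∀ x, δ x = 0 ↔ x ∈ range q := by
  let _ : MetricSpace (ℕ → ℝ) := TopologicalSpace.metrizableSpaceMetric (ℕ → ℝ)
  refine ⟨fun x => Metric.infDist x (range q), Metric.continuous_infDist_pt _, fun x => ?_⟩
  exact (isCompact_range_q.isClosed.mem_iff_infDist_zero (range_nonempty q)).symm

/-- a continuous function vanishing exactly on the Cantor set -/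
noncomputable def δ : (ℕ → ℝ) → ℝ := exists_δ.choose

lemma continuous_δ : Continuous δ := exists_δ.choose_spec.1

lemma δ_eq_zero (x : ℕ → ℝ) : δ x = 0 ↔ x ∈ range q := exists_δ.choose_spec.2 x

/-- ambient space -/
abbrev P := ℝ × (ℕ → AddCircle (5 : ℝ)) × ℝ × (ℕ → ℝ) × (ℕ → ℝ)

/-- the quotient map -/
noncomputable def Φ (z : (ℕ → ℝ) × Cant) : P :=
  (τ 0 z.2, fun n => (ζ n z : AddCircle (5 : ℝ)), δ z.1, fun n => δ z.1 * z.1 n,
    fun n => δ z.1 * ((z.2 n : ℕ) : ℝ))

lemma continuous_Φ : Continuous Φ := by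
  unfold Φ
  have h1 : Continuous fun z : (ℕ → ℝ) × Cant => δ z.1 := continuous_δ.comp continuous_fst
  refine ((continuous_τ 0).comp continuous_snd).prodMk (Continuous.prodMk ?_ (h1.prodMk
    (Continuous.prodMk ?_ ?_)))
  · exact continuous_pi fun n => (AddCircle.continuous_mk' (5 : ℝ)).comp (continuous_ζ n)
  · exact continuous_pi fun n => h1.mul ((continuous_apply n).comp continuous_fst)
  · refine continuous_pi fun n => h1.mul ?_
    exact (continuous_of_discreteTopology (f := fun a : Fin 3 => ((a : ℕ) : ℝ))).comp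
      ((continuous_apply n).comp continuous_snd)

lemma Φ_fst (z : (ℕ → ℝ) × Cant) : (Φ z).1 = τ 0 z.2 := rfl

/-- what `Φ` identifies -/
lemma Φ_eq {z z' : (ℕ → ℝ) × Cant} (h : Φ z = Φ z') :
    z = z' ∨ ∃ y y', z.1 = q y ∧ z'.1 = q y' ∧ τ 0 z.2 = τ 0 z'.2 ∧
      ∀ n, ((Z ((y n : ℕ) : ℝ) (τ n z.2) (z.2 n) : ℝ) : AddCircle (5 : ℝ))
        = (Z ((y' n : ℕ) : ℝ) (τ n z'.2) (z'.2 n) : ℝ) := by
  simp only [Φ, Prod.mk.injEq] at h
  obtain ⟨h1, h2, h3, h4, h5⟩ := h
  by_cases hz : δ z.1 = 0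
  · right
    have hz' : δ z'.1 = 0 := by rw [← h3, hz]
    obtain ⟨y, hy⟩ := (δ_eq_zero _).1 hz
    obtain ⟨y', hy'⟩ := (δ_eq_zero _).1 hz'
    refine ⟨y, y', hy.symm, hy'.symm, h1, fun n => ?_⟩
    have := congrFun h2 n
    simp only [ζ] at this
    rwa [← hy, ← hy', ν_q, ν_q] at this
  · left
    have e1 : z.1 = z'.1 := by
      funext n
      have := congrFun h4 n
      simp only [← h3] at this
      exact mul_left_cancel₀ hz this
    have e2 : z.2 = z'.2 := by
      funext n
      have := congrFun h5 n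
      simp only [← h3] at this
      have := mul_left_cancel₀ hz this
      exact Fin.ext (by exact_mod_cast this)
    exact Prod.ext e1 e2

/-- sufficient condition for a gluing at level `j` -/
lemma glue (j : ℕ) (y y' c c' : Cant) (hy : ∀ i < j, y i = y' i) (hc : ∀ i < j, c i = c' i)
    (hd : (∀ i, j < i → c i = 0) ∨ (∀ i, j < i → c i = 2))
    (hd' : (∀ i, j < i → c' i = 0) ∨ (∀ i, j < i → c' i = 2))
    (hτ : τ j c = τ j c')
    (hZ : Z ((y j : ℕ) : ℝ) (τ j c) (c j) = Z ((y' j : ℕ) : ℝ) (τ j c') (c' j)) :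
    Φ (q y, c) = Φ (q y', c') := by
  have hδ : ∀ y, δ (q y) = 0 := fun y => (δ_eq_zero _).2 ⟨y, rfl⟩
  have hup := τ_up hτ hc
  simp only [Φ, hδ, zero_mul, Prod.mk.injEq, and_true, hup 0 (Nat.zero_le _), true_and]
  funext n
  simp only [ζ, ν_q]
  have key : ∀ (y c : Cant) (n : ℕ), j < n →
      ((∀ i, j < i → c i = 0) ∨ (∀ i, j < i → c i = 2)) →
      ((Z ((y n : ℕ) : ℝ) (τ n c) (c n) : ℝ) : AddCircle (5 : ℝ)) = 0 := by
    intro y c n hn h
    rcases h with h | h
    · have : τ n c = 0 := τ_of_tail_zero fun i hi => h i (by omega)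
      rw [this, h n hn]
      simp [Z]
    · have : τ n c = 1 := τ_of_tail_two fun i hi => h i (by omega)
      rw [this, h n hn]
      have h5 : Z ((y n : ℕ) : ℝ) 1 2 = 5 := by
        simp [Z]; norm_num
      rw [h5]
      rw [AddCircle.coe_eq_zero_iff]
      exact ⟨1, by simp⟩
  rcases lt_trichotomy n j with hn | hn | hn
  · rw [hy n hn, hup n hn.le, hc n hn]
  · subst hn; rw [hZ]
  · rw [key y c n hn hd, key y' c' n hn hd']

end Pool.Agent.Lib.MP_1501ba_gt
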