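import Mathlib
import Pool.Agent.Lib.MP_1501ba_gt.Space

set_option autoImplicit false

/-! Connectedness of the subcontinuum `K` and of the fibres of `M`. -/

namespace Pool.Agent.Lib.MP_1501ba_gt

open Topology Filter Set

/-- continuous functions to `Bool` on the Cantor space depend on finitely many digits -/
lemma finite_depend {A : Type} [TopologicalSpace A] [DiscreteTopology A] [Finite A]
    (h : (ℕ → A) → Bool) (hh : Continuous h) :
    ∃ N : ℕ, ∀ x x' : ℕ → A, (∀ i < N, x i = x' i) → h x = h x' := by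
  have hU : ∀ x : ℕ → A, ∃ n : ℕ, PiNat.cylinder x n ⊆ h ⁻¹' {h x} := by
    intro x
    have ho : IsOpen (h ⁻¹' {h x}) := (isOpen_discrete {h x}).preimage hh
    obtain ⟨s, ⟨z, n, rfl⟩, hxs, hs⟩ :=
      (PiNat.isTopologicalBasis_cylinders (fun _ : ℕ => A)).exists_subset_of_mem_open
        (a := x) (by simp : x ∈ h ⁻¹' {h x}) ho
    refine ⟨n, ?_⟩
    have : PiNat.cylinder x n = PiNat.cylinder z n := PiNat.mem_cylinder_iff_eq.1 hxs
    rw [this]; exact hs
  choose n hn using hU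
  obtain ⟨t, ht⟩ := (isCompact_univ (X := ℕ → A)).elim_nhds_subcover
    (fun x => PiNat.cylinder x (n x))
    (fun x _ => (PiNat.isOpen_cylinder (fun _ : ℕ => A) x (n x)).mem_nhds (PiNat.self_mem_cylinder x _))
  refine ⟨t.sup n, fun x x' hxx' => ?_⟩
  obtain ⟨a, hat, hxa⟩ := mem_iUnion₂.1 (ht.2 (mem_univ x))
  have h1 : h x = h a := hn a hxa
  have h2 : x' ∈ PiNat.cylinder a (n a) := by
    rw [PiNat.mem_cylinder_iff] at hxa ⊢
    intro i hi
    rw [← hxx' i (lt_of_lt_of_le hi (Finset.le_sup hat)), hxa i hi]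
  have h3 : h x' = h a := hn a h2
  rw [h1, h3]

/-- point with prefix `z`, `j`-th digit pair `(a, b)` and tail `(0, d)` -/
def pt (z : ℕ → Fin 3 × Fin 3) (j : ℕ) (a b d : Fin 3) : ℕ → Fin 3 × Fin 3 :=
  fun i => if i < j then z i else if i = j then (a, b) else (0, d)

/-- the map from the Cantor space onto `K` -/
noncomputable def g (z : ℕ → Fin 3 × Fin 3) : P := Φ (q (fun n => (z n).1), fun n => (z n).2)

lemma continuous_g : Continuous g := by
  unfold g
  have h1 : Continuous fun z : ℕ → Fin 3 × Fin 3 => fun n => (z n).1 :=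
    continuous_pi fun n => continuous_fst.comp (continuous_apply n)
  have h2 : Continuous fun z : ℕ → Fin 3 × Fin 3 => fun n => (z n).2 :=
    continuous_pi fun n => continuous_snd.comp (continuous_apply n)
  exact continuous_Φ.comp ((continuous_q.comp h1).prodMk h2)

lemma τ_pt_zero (z : ℕ → Fin 3 × Fin 3) (j : ℕ) (a b : Fin 3) :
    τ j (fun n => (pt z j a b 0 n).2) = ((b : ℕ) : ℝ) / 3 := by
  rw [τ_succ, τ_of_tail_zero (n := j + 1)]
  · simp [pt]
  · intro i hi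
    simp [pt, show ¬ i < j by omega, show i ≠ j by omega]

lemma τ_pt_two (z : ℕ → Fin 3 × Fin 3) (j : ℕ) (a b : Fin 3) :
    τ j (fun n => (pt z j a b 2 n).2) = (((b : ℕ) : ℝ) + 1) / 3 := by
  rw [τ_succ, τ_of_tail_two (n := j + 1)]
  · simp [pt]
  · intro i hi
    simp [pt, show ¬ i < j by omega, show i ≠ j by omega]

lemma g_glue (z : ℕ → Fin 3 × Fin 3) (j : ℕ) (a b d a' b' d' : Fin 3)
    (hd : d = 0 ∨ d = 2) (hd' : d' = 0 ∨ d' = 2)
    (hτ : τ j (fun n => (pt z j a b d n).2) = τ j (fun n => (pt z j a' b' d' n).2))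
    (hZ : Z ((a : ℕ) : ℝ) (τ j (fun n => (pt z j a b d n).2)) b
      = Z ((a' : ℕ) : ℝ) (τ j (fun n => (pt z j a' b' d' n).2)) b') :
    g (pt z j a b d) = g (pt z j a' b' d') := by
  unfold g
  refine glue j _ _ _ _ ?_ ?_ ?_ ?_ hτ ?_
  · intro i hi; simp [pt, hi]
  · intro i hi; simp [pt, hi]
  · rcases hd with rfl | rfl
    · left; intro i hi; simp [pt, show ¬ i < j by omega, show i ≠ j by omega]
    · right; intro i hi; simp [pt, show ¬ i < j by omega, show i ≠ j by omega]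
  · rcases hd' with rfl | rfl
    · left; intro i hi; simp [pt, show ¬ i < j by omega, show i ≠ j by omega]
    · right; intro i hi; simp [pt, show ¬ i < j by omega, show i ≠ j by omega]
  · simpa [pt] using hZ

lemma g1 (z : ℕ → Fin 3 × Fin 3) (j : ℕ) (a : Fin 3) : g (pt z j a 0 2) = g (pt z j 0 1 0) := by
  refine g_glue z j a 0 2 0 1 0 (Or.inr rfl) (Or.inl rfl) ?_ ?_
  · rw [τ_pt_zero, τ_pt_two]; norm_num
  · rw [τ_pt_zero, τ_pt_two]; norm_num [Z_zero, Z_one, Z_two]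

lemma g2 (z : ℕ → Fin 3 × Fin 3) (j : ℕ) : g (pt z j 1 1 0) = g (pt z j 2 1 0) := by
  refine g_glue z j 1 1 0 2 1 0 (Or.inl rfl) (Or.inl rfl) ?_ ?_
  · rw [τ_pt_zero, τ_pt_zero]
  · rw [τ_pt_zero, τ_pt_zero]; norm_num [Z_zero, Z_one, Z_two]

lemma g3 (z : ℕ → Fin 3 × Fin 3) (j : ℕ) (a : Fin 3) : g (pt z j 1 1 2) = g (pt z j a 2 0) := by
  refine g_glue z j 1 1 2 a 2 0 (Or.inr rfl) (Or.inl rfl) ?_ ?_
  · rw [τ_pt_zero, τ_pt_two]; norm_num
  · rw [τ_pt_zero, τ_pt_two]; norm_num [Z_zero, Z_one, Z_two]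

lemma g4 (z : ℕ → Fin 3 × Fin 3) (j : ℕ) : g (pt z j 0 1 2) = g (pt z j 2 1 2) := by
  refine g_glue z j 0 1 2 2 1 2 (Or.inr rfl) (Or.inr rfl) ?_ ?_
  · rw [τ_pt_two, τ_pt_two]
  · rw [τ_pt_two, τ_pt_two]; norm_num [Z_zero, Z_one, Z_two]

/-- The subcontinuum `K`. -/
def K : Set P := range g

lemma isPreconnected_K : IsPreconnected K := by
  refine isPreconnected_of_forall_constant fun f hf => ?_
  have hcont : Continuous fun z => f (g z) := hf.comp_continuous continuous_g fun z => mem_range_self z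
  obtain ⟨N, hN⟩ := finite_depend (fun z => f (g z)) hcont
  -- descend
  have hdesc : ∀ j, (∀ x x' : ℕ → Fin 3 × Fin 3, (∀ i < j, x i = x' i) → f (g x) = f (g x')) →
      ∀ x x' : ℕ → Fin 3 × Fin 3, f (g x) = f (g x') := by
    intro j
    induction j with
    | zero => intro h x x'; exact h x x' (fun i hi => absurd hi (Nat.not_lt_zero i))
    | succ j ih =>
      intro h
      refine ih ?_
      intro z z' hzz'
      have hX : ∀ (w : ℕ → Fin 3 × Fin 3), (∀ i < j, w i = z i) → ∀ d : Fin 3,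
          f (g w) = f (g (pt z j (w j).1 (w j).2 d)) := by
        intro w hw d
        refine h _ _ fun i hi => ?_
        rcases Nat.lt_or_ge i j with h1 | h1
        · simp [pt, h1, hw i h1]
        · obtain rfl : i = j := by omega
          simp [pt]
      have hd : ∀ (a b d d' : Fin 3), f (g (pt z j a b d)) = f (g (pt z j a b d')) := by
        intro a b d d'
        refine h _ _ fun i hi => ?_
        rcases Nat.lt_or_ge i j with h1 | h1
        · simp [pt, h1]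
        · obtain rfl : i = j := by omega
          simp [pt]
      -- all nine values agree
      have e1 : ∀ a, f (g (pt z j a 0 0)) = f (g (pt z j 0 1 0)) := fun a => by
        rw [hd a 0 0 2, g1]
      have e2 : f (g (pt z j 1 1 0)) = f (g (pt z j 2 1 0)) := by rw [g2]
      have e3 : ∀ a, f (g (pt z j a 2 0)) = f (g (pt z j 1 1 0)) := fun a => by
        rw [← g3 z j a, hd 1 1 2 0]
      have e4 : f (g (pt z j 0 1 0)) = f (g (pt z j 2 1 0)) := by
        rw [hd 0 1 0 2, g4, hd 2 1 2 0]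
      have hall : ∀ a b, f (g (pt z j a b 0)) = f (g (pt z j 0 1 0)) := by
        intro a b
        rcases fin3_cases b with rfl | rfl | rfl
        · exact e1 a
        · rcases fin3_cases a with rfl | rfl | rfl
          · rfl
          · rw [e2, ← e4]
          · rw [← e4]
        · rw [e3, e2, ← e4]
      rw [hX z (fun i _ => rfl) 0, hX z' (fun i hi => (hzz' i hi).symm) 0, hall, hall (z' j).1]
  intro x hx y hy
  obtain ⟨zx, rfl⟩ := hx
  obtain ⟨zy, rfl⟩ := hy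
  exact hdesc N hN zx zy

/-- The continuum `M`. -/
def M : Set P := Φ '' (T ×ˢ (univ : Set Cant))

lemma isCompact_M : IsCompact M := (isCompact_T.prod isCompact_univ).image continuous_Φ

lemma K_subset_M : K ⊆ M := by
  rintro _ ⟨z, rfl⟩
  exact ⟨(q (fun n => (z n).1), fun n => (z n).2), ⟨q_mem _, mem_univ _⟩, rfl⟩

lemma jump_cases : ∀ a b : Fin 3, (a : ℕ) + 1 = (b : ℕ) →
    (a = 0 ∧ b = 1) ∨ (a = 1 ∧ b = 2) := by
  decide

lemma jump_glue {j : ℕ} {c c' : Cant} (h : Jump j c c') :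
    ∃ y, Φ (q y, c) = Φ (q y, c') := by
  have e1 : τ j c = (((c j : ℕ) : ℝ) + 1) / 3 := by
    rw [τ_succ, τ_of_tail_two (n := j + 1) (fun i hi => h.two i hi)]
  have e2 : τ j c' = ((c' j : ℕ) : ℝ) / 3 := by
    rw [τ_succ, τ_of_tail_zero (n := j + 1) (fun i hi => h.zero i hi), add_zero]
  have e3 : ((c' j : ℕ) : ℝ) = ((c j : ℕ) : ℝ) + 1 := by rw [← h.at_]; push_cast; ring
  have hcase : (c j = 0 ∧ c' j = 1) ∨ (c j = 1 ∧ c' j = 2) := jump_cases _ _ h.at_
  rcases hcase with ⟨h1, h2⟩ | ⟨h1, h2⟩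
  · refine ⟨fun _ => 0, glue j _ _ c c' (fun _ _ => rfl) h.pre (Or.inr h.two) (Or.inl h.zero)
      (by rw [e1, e2, e3]) ?_⟩
    rw [e1, e2, h1, h2]
    norm_num [Z_zero, Z_one, Z_two]
  · refine ⟨fun _ => 1, glue j _ _ c c' (fun _ _ => rfl) h.pre (Or.inr h.two) (Or.inl h.zero)
      (by rw [e1, e2, e3]) ?_⟩
    rw [e1, e2, h1, h2]
    norm_num [Z_zero, Z_one, Z_two]

lemma exists_glue {c c' : Cant} (h : τ 0 c = τ 0 c') : ∃ y, Φ (q y, c) = Φ (q y, c') := by
  rcases eq_or_jump h with rfl | ⟨j, hj | hj⟩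
  · exact ⟨fun _ => 0, rfl⟩
  · exact jump_glue hj
  · obtain ⟨y, hy⟩ := jump_glue hj
    exact ⟨y, hy.symm⟩

/-- fibres are connected -/
lemma isPreconnected_fibre (t : ℝ) : IsPreconnected (M ∩ {p | p.1 = t}) := by
  refine isPreconnected_of_forall_pair ?_
  rintro p ⟨⟨⟨x, c⟩, ⟨hx, -⟩, rfl⟩, hp⟩ p' ⟨⟨⟨x', c'⟩, ⟨hx', -⟩, rfl⟩, hp'⟩
  have hc : τ 0 c = t := hp
  have hc' : τ 0 c' = t := hp'
  obtain ⟨y, hy⟩ := exists_glue (hc.trans hc'.symm)
  have hconn : ∀ c : Cant, IsPreconnected ((fun x => Φ (x, c)) '' T) := fun c =>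
    isPreconnected_T.image _ (continuous_Φ.comp (continuous_id.prodMk continuous_const)).continuousOn
  refine ⟨((fun x => Φ (x, c)) '' T) ∪ ((fun x => Φ (x, c')) '' T), ?_, Or.inl ⟨x, hx, rfl⟩,
    Or.inr ⟨x', hx', rfl⟩, ?_⟩
  · rintro _ (⟨w, hw, rfl⟩ | ⟨w, hw, rfl⟩)
    · exact ⟨⟨(w, c), ⟨hw, mem_univ _⟩, rfl⟩, hc⟩
    · exact ⟨⟨(w, c'), ⟨hw, mem_univ _⟩, rfl⟩, hc'⟩
  · refine IsPreconnected.union (Φ (q y, c)) ⟨q y, q_mem y, rfl⟩ ?_ (hconn c) (hconn c')
    rw [hy]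
    exact ⟨q y, q_mem y, rfl⟩

lemma exists_digits {t : ℝ} (ht : t ∈ Icc (0 : ℝ) 1) : ∃ c : Cant, τ 0 c = t := by
  obtain ⟨c, -, hc⟩ := Real.ofDigits_SurjOn (b := 3) (by norm_num) ht
  exact ⟨c, hc⟩

lemma exists_K {t : ℝ} (ht : t ∈ Icc (0 : ℝ) 1) : ∃ p ∈ K, p.1 = t := by
  obtain ⟨c, hc⟩ := exists_digits ht
  exact ⟨g (fun n => (0, c n)), mem_range_self _, hc⟩

/-- `K` together with two fibres is connected -/
lemma isPreconnected_union {s t : ℝ} (hs : s ∈ Icc (0 : ℝ) 1) (ht : t ∈ Icc (0 : ℝ) 1) :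
    IsPreconnected (K ∪ (M ∩ {p | p.1 = s}) ∪ (M ∩ {p | p.1 = t})) := by
  obtain ⟨p, hp, hps⟩ := exists_K hs
  obtain ⟨p', hp', hpt⟩ := exists_K ht
  refine IsPreconnected.union p' (Or.inl hp') ⟨K_subset_M hp', hpt⟩ ?_ (isPreconnected_fibre t)
  exact IsPreconnected.union p hp ⟨K_subset_M hp, hps⟩ isPreconnected_K (isPreconnected_fibre s)

end Pool.Agent.Lib.MP_1501ba_gt
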