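import Mathlib
import Pool.Agent.Lib.MP_1501ba_gt.Connected

set_option autoImplicit false

/-! Minimality of the projection of `M` onto the unit interval. -/

namespace Pool.Agent.Lib.MP_1501ba_gt

open Topology Filter Set

/-- the cylinder of sequences agreeing with `c₀` below `m` -/
def Cyl (c₀ : Cant) (m : ℕ) (c : Cant) : Prop := ∀ i < m, c i = c₀ i

/-- affine coordinate on the block of the cylinder -/
noncomputable def L (c₀ : Cant) (m : ℕ) (s : ℝ) : ℝ :=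
  (∑ i ∈ Finset.range m, Real.ofDigitsTerm c₀ i) + ((3 : ℝ) ^ m)⁻¹ * s

lemma L_injective (c₀ : Cant) (m : ℕ) : Function.Injective (L c₀ m) := by
  intro s t h
  unfold L at h
  have h3 : ((3 : ℝ) ^ m)⁻¹ ≠ 0 := by positivity
  exact mul_left_cancel₀ h3 (add_left_cancel h)

lemma τ_eq_L {c₀ : Cant} {m : ℕ} {c : Cant} (h : Cyl c₀ m c) : τ 0 c = L c₀ m (τ m c) := by
  unfold τ L
  simp only [add_zero]
  rw [Real.ofDigits_eq_sum_add_ofDigits c m]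
  congr 1
  · refine Finset.sum_congr rfl fun i hi => ?_
    simp only [Real.ofDigitsTerm]
    rw [h i (Finset.mem_range.1 hi)]

lemma exists_cyl (c₀ : Cant) (m : ℕ) {s : ℝ} (hs : s ∈ Icc (0 : ℝ) 1) :
    ∃ c, Cyl c₀ m c ∧ τ m c = s := by
  obtain ⟨d, hd⟩ := exists_digits hs
  refine ⟨fun i => if i < m then c₀ i else d (i - m), ?_, ?_⟩
  · intro i hi; simp [hi]
  · rw [← hd]
    unfold τ
    congr 1
    funext i
    simp

lemma L_mem (c₀ : Cant) (m : ℕ) {s : ℝ} (hs : s ∈ Icc (0 : ℝ) 1) : L c₀ m s ∈ Icc (0 : ℝ) 1 := by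
  obtain ⟨c, hc, hcs⟩ := exists_cyl c₀ m hs
  rw [← hcs, ← τ_eq_L hc]
  exact ⟨τ_nonneg 0 c, τ_le_one 0 c⟩

lemma cyl_of_interior {c₀ : Cant} {m : ℕ} {s : ℝ} (hs : s ∈ Ioo (0 : ℝ) 1) {c : Cant}
    (hc : τ 0 c = L c₀ m s) : Cyl c₀ m c ∧ τ m c = s := by
  obtain ⟨c₁, h1, h1s⟩ := exists_cyl c₀ m (Ioo_subset_Icc_self hs)
  have heq : τ 0 c = τ 0 c₁ := by rw [hc, τ_eq_L h1, h1s]
  have hcyl : Cyl c₀ m c := by
    rcases eq_or_jump heq with rfl | ⟨j, hj | hj⟩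
    · exact h1
    · have hjm : m ≤ j := by
        by_contra hlt
        push Not at hlt
        have : τ m c₁ = 0 := τ_of_tail_zero fun i hi => hj.zero i (by omega)
        rw [h1s] at this
        exact absurd this hs.1.ne'
      intro i hi
      rw [hj.pre i (by omega), h1 i hi]
    · have hjm : m ≤ j := by
        by_contra hlt
        push Not at hlt
        have : τ m c₁ = 1 := τ_of_tail_two fun i hi => hj.two i (by omega)
        rw [h1s] at this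
        exact absurd this hs.2.ne
      intro i hi
      rw [← hj.pre i (by omega), h1 i hi]
  refine ⟨hcyl, ?_⟩
  rw [τ_eq_L hcyl] at hc
  exact L_injective _ _ hc

lemma sep (D : Set P) (hDM : D ⊆ M) (t : ℝ) (hconn : IsPreconnected (D ∩ {p | p.1 = t}))
    (h : (ℕ → ℝ) × Cant → Prop)
    (hA : IsClosed {z : (ℕ → ℝ) × Cant | z.1 ∈ T ∧ Φ z ∈ D ∧ τ 0 z.2 = t ∧ h z})
    (hB : IsClosed {z : (ℕ → ℝ) × Cant | z.1 ∈ T ∧ Φ z ∈ D ∧ τ 0 z.2 = t ∧ ¬ h z})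
    (hΦ : ∀ z z' : (ℕ → ℝ) × Cant, z.1 ∈ T → z'.1 ∈ T → Φ z ∈ D → Φ z' ∈ D → τ 0 z.2 = t →
      τ 0 z'.2 = t → Φ z = Φ z' → h z → h z')
    (z z' : (ℕ → ℝ) × Cant) (hz : z.1 ∈ T) (hz' : z'.1 ∈ T) (hD : Φ z ∈ D) (hD' : Φ z' ∈ D)
    (ht : τ 0 z.2 = t) (ht' : τ 0 z'.2 = t) (hh : h z) : h z' := by
  by_contra hn
  have hX : IsCompact (T ×ˢ (univ : Set Cant)) := isCompact_T.prod isCompact_univ
  have cA := (hX.of_isClosed_subset hA (fun w hw => ⟨hw.1, mem_univ _⟩)).image continuous_Φ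
  have cB := (hX.of_isClosed_subset hB (fun w hw => ⟨hw.1, mem_univ _⟩)).image continuous_Φ
  have key := isPreconnected_closed_iff.1 hconn _ _ cA.isClosed cB.isClosed
  refine (fun hne => ?_ : (D ∩ {p | p.1 = t} ∩ (_ ∩ _)).Nonempty → False) (key ?_ ?_ ?_)
  · obtain ⟨p, -, ⟨w, hw, hwp⟩, ⟨w', hw', hwp'⟩⟩ := hne
    exact hw'.2.2.2 (hΦ w w' hw.1 hw'.1 hw.2.1 hw'.2.1 hw.2.2.1 hw'.2.2.1 (hwp.trans hwp'.symm)
      hw.2.2.2)
  · rintro p ⟨hp, hpt⟩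
    obtain ⟨w, ⟨hw, -⟩, rfl⟩ := hDM hp
    by_cases hhw : h w
    · exact Or.inl ⟨w, ⟨hw, hp, hpt, hhw⟩, rfl⟩
    · exact Or.inr ⟨w, ⟨hw, hp, hpt, hhw⟩, rfl⟩
  · exact ⟨Φ z, ⟨hD, ht⟩, z, ⟨hz, hD, ht, hh⟩, rfl⟩
  · exact ⟨Φ z', ⟨hD', ht'⟩, z', ⟨hz', hD', ht', hn⟩, rfl⟩

lemma circle_inj {u v : ℝ} (hu : u ∈ Ico (0 : ℝ) 5) (hv : v ∈ Ico (0 : ℝ) 5)
    (h : (u : AddCircle (5 : ℝ)) = v) : u = v := by
  have : Fact (0 < (5 : ℝ)) := ⟨by norm_num⟩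
  refine (AddCircle.coe_eq_coe_iff_of_mem_Ico (p := (5 : ℝ)) (a := 0) ?_ ?_).1 h
  · simpa using hu
  · simpa using hv

/-- the digit `c m` is determined by `τ m c` up to the endpoints -/
lemma digit_bounds (m : ℕ) (c : Cant) :
    ((c m : ℕ) : ℝ) / 3 ≤ τ m c ∧ τ m c ≤ (((c m : ℕ) : ℝ) + 1) / 3 := by
  rw [τ_succ]
  have h0 := τ_nonneg (m + 1) c
  have h1 := τ_le_one (m + 1) c
  constructor <;> linarith

/-- the essential minimality statement -/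
theorem minimal (D : Set P) (hDM : D ⊆ M) (hclosed : IsClosed D)
    (hsurj : ∀ t ∈ Icc (0 : ℝ) 1, ∃ p ∈ D, p.1 = t)
    (hconn : ∀ t ∈ Icc (0 : ℝ) 1, IsPreconnected (D ∩ {p | p.1 = t})) : M ⊆ D := by
  rintro p₀ ⟨⟨x₀, c₀⟩, ⟨hx₀, -⟩, rfl⟩
  by_contra hp₀
  -- an open box in the complement
  have hopen : IsOpen (Φ ⁻¹' Dᶜ) := hclosed.isOpen_compl.preimage continuous_Φ
  obtain ⟨U, V, hU, hV, hxU, hcV, hUV⟩ := isOpen_prod_iff.1 hopen x₀ c₀ hp₀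
  obtain ⟨m, hm⟩ : ∃ m, ∀ c, Cyl c₀ m c → c ∈ V := by
    obtain ⟨s, ⟨z, n, rfl⟩, hxs, hs⟩ :=
      (PiNat.isTopologicalBasis_cylinders (fun _ : ℕ => Fin 3)).exists_subset_of_mem_open hcV hV
    refine ⟨n, fun c hc => hs ?_⟩
    rw [PiNat.mem_cylinder_iff] at hxs ⊢
    intro i hi
    rw [hc i hi, hxs i hi]
  have hmiss : ∀ z : (ℕ → ℝ) × Cant, Φ z ∈ D → Cyl c₀ m z.2 → z.1 ∉ U := by
    intro z hz hc hzU
    exact hUV (⟨hzU, hm _ hc⟩ : z ∈ U ×ˢ V) hz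
  obtain ⟨r, hr, hrq⟩ := digit_function m U hU x₀ hx₀ hxU
  have hTU : IsClosed (T \ U) := isClosed_T.sdiff hU
  -- closedness facts
  have hDt : IsClosed {z : (ℕ → ℝ) × Cant | z.1 ∈ T ∧ Φ z ∈ D} :=
    (isClosed_T.preimage continuous_fst).inter (hclosed.preimage continuous_Φ)
  have hlev : ∀ t : ℝ, IsClosed {z : (ℕ → ℝ) × Cant | τ 0 z.2 = t} := fun t =>
    isClosed_eq ((continuous_τ 0).comp continuous_snd) continuous_const
  have hdig : ∀ S : Set (Fin 3), IsClosed {z : (ℕ → ℝ) × Cant | z.2 m ∈ S} := fun S =>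
    (isClosed_discrete S).preimage ((continuous_apply m).comp continuous_snd)
  have hrcl : ∀ S : Set ℤ, IsClosed {z : (ℕ → ℝ) × Cant | z.1 ∈ T \ U ∧ r z.1 ∈ S} := fun S =>
    (hr.preimage_isClosed_of_isClosed hTU (isClosed_discrete S)).preimage continuous_fst
  -- covering of each third of the block
  have hcover : ∀ b : Fin 3, ∀ s ∈ Icc (((b : ℕ) : ℝ) / 3) ((((b : ℕ) : ℝ) + 1) / 3),
      ∃ z : (ℕ → ℝ) × Cant, z.1 ∈ T ∧ Φ z ∈ D ∧ Cyl c₀ m z.2 ∧ z.2 m = b ∧ τ m z.2 = s := by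
    intro b
    set S : Set ((ℕ → ℝ) × Cant) := {z | z.1 ∈ T ∧ Φ z ∈ D ∧ Cyl c₀ m z.2 ∧ z.2 m = b} with hS
    have hcyl : IsClosed {z : (ℕ → ℝ) × Cant | Cyl c₀ m z.2} := by
      have : {z : (ℕ → ℝ) × Cant | Cyl c₀ m z.2}
          = ⋂ i, ⋂ (_ : i < m), {z : (ℕ → ℝ) × Cant | z.2 i = c₀ i} := by
        ext z; simp [Cyl]
      rw [this]
      exact isClosed_iInter fun i => isClosed_iInter fun _ =>
        isClosed_eq ((continuous_apply i).comp continuous_snd) continuous_const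
    have hSc : IsClosed S := by
      have : S = {z : (ℕ → ℝ) × Cant | z.1 ∈ T ∧ Φ z ∈ D} ∩ {z | Cyl c₀ m z.2}
          ∩ {z | z.2 m ∈ ({b} : Set (Fin 3))} := by
        ext z; simp [hS, and_assoc]
      rw [this]
      exact (hDt.inter hcyl).inter (hdig _)
    have hScomp : IsCompact S := (isCompact_T.prod isCompact_univ).of_isClosed_subset hSc
      (fun w hw => ⟨hw.1, mem_univ _⟩)
    have hAc : IsClosed ((fun z : (ℕ → ℝ) × Cant => τ m z.2) '' S) :=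
      (hScomp.image ((continuous_τ m).comp continuous_snd)).isClosed
    have hb0 : (0 : ℝ) ≤ ((b : ℕ) : ℝ) := Nat.cast_nonneg _
    have hb2 := fin3_le b
    have hIoo : Ioo (((b : ℕ) : ℝ) / 3) ((((b : ℕ) : ℝ) + 1) / 3)
        ⊆ (fun z : (ℕ → ℝ) × Cant => τ m z.2) '' S := by
      intro s hs
      have hs1 : s ∈ Ioo (0 : ℝ) 1 := by
        have h1 := hs.1
        have h2 := hs.2
        constructor <;> linarith
      obtain ⟨p, hpD, hpt⟩ := hsurj (L c₀ m s) (L_mem c₀ m (Ioo_subset_Icc_self hs1))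
      obtain ⟨z, ⟨hz, -⟩, rfl⟩ := hDM hpD
      obtain ⟨hc, hτ⟩ := cyl_of_interior hs1 (c := z.2) hpt
      refine ⟨z, ⟨hz, hpD, hc, ?_⟩, hτ⟩
      have hbd := digit_bounds m z.2
      rw [hτ] at hbd
      have h1 := hs.1
      have h2 := hs.2
      have h3 : ((z.2 m : ℕ) : ℝ) < ((b : ℕ) : ℝ) + 1 := by linarith [hbd.1]
      have h4 : ((b : ℕ) : ℝ) < ((z.2 m : ℕ) : ℝ) + 1 := by linarith [hbd.2]
      have h3' : (z.2 m : ℕ) < (b : ℕ) + 1 := by exact_mod_cast h3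
      have h4' : (b : ℕ) < (z.2 m : ℕ) + 1 := by exact_mod_cast h4
      exact Fin.ext (by omega)
    have hIcc := closure_minimal hIoo hAc
    rw [closure_Ioo (by intro h; linarith)] at hIcc
    intro s hs
    obtain ⟨z, hz, hzs⟩ := hIcc hs
    exact ⟨z, hz.1, hz.2.1, hz.2.2.1, hz.2.2.2, hzs⟩
  -- the separation statement at an interior level
  have hsep : ∀ s ∈ Ioo (0 : ℝ) 1, ∀ (b : Fin 3) (a : ℤ),
      (∀ (d d' : Fin 3) (y y' : Fin 3), ((d : ℕ) : ℝ) / 3 ≤ s → s ≤ (((d : ℕ) : ℝ) + 1) / 3 →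
        ((d' : ℕ) : ℝ) / 3 ≤ s → s ≤ (((d' : ℕ) : ℝ) + 1) / 3 →
        ((Z ((y : ℕ) : ℝ) s d : ℝ) : AddCircle (5 : ℝ)) = (Z ((y' : ℕ) : ℝ) s d' : ℝ) →
        (d = b ∨ ((y : ℕ) : ℤ) = a) → (d' = b ∨ ((y' : ℕ) : ℤ) = a)) →
      ∀ z z' : (ℕ → ℝ) × Cant, z.1 ∈ T → z'.1 ∈ T → Φ z ∈ D → Φ z' ∈ D → Cyl c₀ m z.2 →
        Cyl c₀ m z'.2 → τ m z.2 = s → τ m z'.2 = s →
        (z.2 m = b ∨ r z.1 = a) → (z'.2 m = b ∨ r z'.1 = a) := by
    intro s hs b a hloc z z' hz hz' hD hD' hc hc' hτ hτ' hh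
    have hchar : ∀ w : (ℕ → ℝ) × Cant, w.1 ∈ T → Φ w ∈ D → τ 0 w.2 = L c₀ m s →
        w.1 ∈ T \ U := fun w hw hwD hwt =>
      ⟨hw, hmiss w hwD (cyl_of_interior hs hwt).1⟩
    refine sep D hDM (L c₀ m s) (hconn _ (L_mem c₀ m (Ioo_subset_Icc_self hs)))
      (fun w => w.2 m = b ∨ r w.1 = a) ?_ ?_ ?_ z z' hz hz' hD hD' (by rw [τ_eq_L hc, hτ])
      (by rw [τ_eq_L hc', hτ']) hh
    · have : {w : (ℕ → ℝ) × Cant | w.1 ∈ T ∧ Φ w ∈ D ∧ τ 0 w.2 = L c₀ m s ∧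
          (w.2 m = b ∨ r w.1 = a)} = {w | w.1 ∈ T ∧ Φ w ∈ D} ∩ {w | τ 0 w.2 = L c₀ m s} ∩
          ({w | w.2 m ∈ ({b} : Set (Fin 3))} ∪ {w | w.1 ∈ T \ U ∧ r w.1 ∈ ({a} : Set ℤ)}) := by
        ext w
        simp only [mem_ofPred_eq, mem_inter_iff, mem_union, mem_singleton_iff]
        constructor
        · rintro ⟨h1, h2, h3, h4 | h4⟩
          · exact ⟨⟨⟨h1, h2⟩, h3⟩, Or.inl h4⟩
          · exact ⟨⟨⟨h1, h2⟩, h3⟩, Or.inr ⟨hchar w h1 h2 h3, h4⟩⟩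
        · rintro ⟨⟨⟨h1, h2⟩, h3⟩, h4 | h4⟩
          · exact ⟨h1, h2, h3, Or.inl h4⟩
          · exact ⟨h1, h2, h3, Or.inr h4.2⟩
      rw [this]
      exact (hDt.inter (hlev _)).inter ((hdig _).union (hrcl _))
    · have : {w : (ℕ → ℝ) × Cant | w.1 ∈ T ∧ Φ w ∈ D ∧ τ 0 w.2 = L c₀ m s ∧
          ¬ (w.2 m = b ∨ r w.1 = a)} = {w | w.1 ∈ T ∧ Φ w ∈ D} ∩ {w | τ 0 w.2 = L c₀ m s} ∩
          ({w | w.2 m ∈ ({b} : Set (Fin 3))ᶜ} ∩ {w | w.1 ∈ T \ U ∧ r w.1 ∈ ({a} : Set ℤ)ᶜ}) := by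
        ext w
        simp only [mem_ofPred_eq, mem_inter_iff, mem_compl_iff, mem_singleton_iff, not_or]
        constructor
        · rintro ⟨h1, h2, h3, h4, h5⟩
          exact ⟨⟨⟨h1, h2⟩, h3⟩, h4, hchar w h1 h2 h3, h5⟩
        · rintro ⟨⟨⟨h1, h2⟩, h3⟩, h4, h5, h6⟩
          exact ⟨h1, h2, h3, h4, h6⟩
      rw [this]
      exact (hDt.inter (hlev _)).inter ((hdig _).inter (hrcl _))
    · intro w w' hw hw' hwD hwD' hwt hwt' hΦ hhw
      rcases Φ_eq hΦ with rfl | ⟨y, y', hy, hy', -, hZ⟩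
      · exact hhw
      · have k1 := cyl_of_interior hs hwt
        have k2 := cyl_of_interior hs hwt'
        have hZm := hZ m
        rw [k1.2, k2.2] at hZm
        have b1 := digit_bounds m w.2
        have b2 := digit_bounds m w'.2
        rw [k1.2] at b1
        rw [k2.2] at b2
        have := hloc (w.2 m) (w'.2 m) (y m) (y' m) b1.1 b1.2 b2.1 b2.2 hZm
          (by rwa [hy, hrq] at hhw)
        rw [hy', hrq]
        exact this
  -- local computations with the gluing values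
  have hloc1 : ∀ (d d' : Fin 3) (y y' : Fin 3), ((d : ℕ) : ℝ) / 3 ≤ (1 / 3 : ℝ) →
      (1 / 3 : ℝ) ≤ (((d : ℕ) : ℝ) + 1) / 3 →
        ((d' : ℕ) : ℝ) / 3 ≤ (1 / 3 : ℝ) → (1 / 3 : ℝ) ≤ (((d' : ℕ) : ℝ) + 1) / 3 →
        ((Z ((y : ℕ) : ℝ) (1 / 3) d : ℝ) : AddCircle (5 : ℝ)) = (Z ((y' : ℕ) : ℝ) (1 / 3) d' : ℝ) →
        (d = 0 ∨ ((y : ℕ) : ℤ) = 0) → (d' = 0 ∨ ((y' : ℕ) : ℤ) = 0) := by
    intro d d' y y' h1 h2 h3 h4 hZ hh
    have v1 : Z ((y : ℕ) : ℝ) (1 / 3) d = 1 := by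
      rcases fin3_cases d with rfl | rfl | rfl
      · rw [Z_zero]; norm_num
      · rcases hh with hh | hh
        · exact absurd hh (by decide)
        · have : ((y : ℕ) : ℝ) = 0 := by exact_mod_cast hh
          rw [Z_one, this]; norm_num
      · norm_num at h1
    rw [v1] at hZ
    rcases fin3_cases d' with rfl | rfl | rfl
    · exact Or.inl rfl
    · rcases fin3_cases y' with rfl | rfl | rfl
      · exact Or.inr (by norm_num)
      · rw [Z_one] at hZ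
        have := circle_inj (by norm_num) (by norm_num) hZ
        norm_num at this
      · rw [Z_one] at hZ
        have := circle_inj (by norm_num) (by norm_num) hZ
        norm_num at this
    · norm_num at h3
  have hloc2 : ∀ (d d' : Fin 3) (y y' : Fin 3), ((d : ℕ) : ℝ) / 3 ≤ (2 / 3 : ℝ) →
      (2 / 3 : ℝ) ≤ (((d : ℕ) : ℝ) + 1) / 3 →
        ((d' : ℕ) : ℝ) / 3 ≤ (2 / 3 : ℝ) → (2 / 3 : ℝ) ≤ (((d' : ℕ) : ℝ) + 1) / 3 →
        ((Z ((y : ℕ) : ℝ) (2 / 3) d : ℝ) : AddCircle (5 : ℝ)) = (Z ((y' : ℕ) : ℝ) (2 / 3) d' : ℝ) →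
        (d = 2 ∨ ((y : ℕ) : ℤ) = 1) → (d' = 2 ∨ ((y' : ℕ) : ℤ) = 1) := by
    intro d d' y y' h1 h2 h3 h4 hZ hh
    have v1 : Z ((y : ℕ) : ℝ) (2 / 3) d = 4 := by
      rcases fin3_cases d with rfl | rfl | rfl
      · norm_num at h2
      · rcases hh with hh | hh
        · exact absurd hh (by decide)
        · have : ((y : ℕ) : ℝ) = 1 := by exact_mod_cast hh
          rw [Z_one, this]; norm_num
      · rw [Z_two]; norm_num
    rw [v1] at hZ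
    rcases fin3_cases d' with rfl | rfl | rfl
    · norm_num at h4
    · rcases fin3_cases y' with rfl | rfl | rfl
      · rw [Z_one] at hZ
        have := circle_inj (by norm_num) (by norm_num) hZ
        norm_num at this
      · exact Or.inr (by norm_num)
      · rw [Z_one] at hZ
        have := circle_inj (by norm_num) (by norm_num) hZ
        norm_num at this
    · exact Or.inl rfl
  have hloc3 : ∀ s ∈ Ioo (1 / 3 : ℝ) (2 / 3), ∀ (d d' : Fin 3) (y y' : Fin 3),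
      ((d : ℕ) : ℝ) / 3 ≤ s → s ≤ (((d : ℕ) : ℝ) + 1) / 3 →
        ((d' : ℕ) : ℝ) / 3 ≤ s → s ≤ (((d' : ℕ) : ℝ) + 1) / 3 →
        ((Z ((y : ℕ) : ℝ) s d : ℝ) : AddCircle (5 : ℝ)) = (Z ((y' : ℕ) : ℝ) s d' : ℝ) →
        (d = 0 ∨ ((y : ℕ) : ℤ) = 0) → (d' = 0 ∨ ((y' : ℕ) : ℤ) = 0) := by
    intro s hs d d' y y' h1 h2 h3 h4 hZ hh
    obtain ⟨hs1, hs2⟩ := hs
    have hd : ∀ d : Fin 3, ((d : ℕ) : ℝ) / 3 ≤ s → s ≤ (((d : ℕ) : ℝ) + 1) / 3 → d = 1 := by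
      intro d h1 h2
      rcases fin3_cases d with rfl | rfl | rfl
      · norm_num at h2; linarith
      · rfl
      · norm_num at h1; linarith
    obtain rfl := hd d h1 h2
    obtain rfl := hd d' h3 h4
    rcases hh with hh | hh
    · exact absurd hh (by decide)
    · have hy : ((y : ℕ) : ℝ) = 0 := by exact_mod_cast hh
      rw [Z_one, Z_one, hy] at hZ
      have e0 : 3 * s + (2 * (0 : ℝ) - 3 * s * 0 * (0 - 1)) = 3 * s := by ring
      rw [e0] at hZ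
      rcases fin3_cases y' with rfl | rfl | rfl
      · exact Or.inr (by norm_num)
      · have e1 : 3 * s + (2 * (((1 : Fin 3) : ℕ) : ℝ) - 3 * s * (((1 : Fin 3) : ℕ) : ℝ)
            * ((((1 : Fin 3) : ℕ) : ℝ) - 1)) = 3 * s + 2 := by
          rw [show (((1 : Fin 3) : ℕ) : ℝ) = 1 by norm_num]; ring
        rw [e1] at hZ
        have := circle_inj ⟨by linarith, by linarith⟩ ⟨by linarith, by linarith⟩ hZ
        linarith
      · have e1 : 3 * s + (2 * (((2 : Fin 3) : ℕ) : ℝ) - 3 * s * (((2 : Fin 3) : ℕ) : ℝ)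
            * ((((2 : Fin 3) : ℕ) : ℝ) - 1)) = 4 - 3 * s := by
          rw [show (((2 : Fin 3) : ℕ) : ℝ) = 2 by norm_num]; ring
        rw [e1] at hZ
        have := circle_inj ⟨by linarith, by linarith⟩ ⟨by linarith, by linarith⟩ hZ
        linarith
  -- consequences at the two endpoints of the middle third
  have hend1 : ∀ z : (ℕ → ℝ) × Cant, z.1 ∈ T → Φ z ∈ D → Cyl c₀ m z.2 → z.2 m = 1 →
      τ m z.2 = 1 / 3 → r z.1 = 0 := by
    intro z hz hD hc hzm hτ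
    obtain ⟨w, hw, hwD, hwc, hwm, hwτ⟩ := hcover 0 (1 / 3) (by norm_num)
    have := hsep (1 / 3) (by norm_num) 0 0 hloc1 w z hw hz hwD hD hwc hc hwτ hτ (Or.inl hwm)
    rcases this with h | h
    · rw [hzm] at h; exact absurd h (by decide)
    · exact h
  have hend2 : ∀ z : (ℕ → ℝ) × Cant, z.1 ∈ T → Φ z ∈ D → Cyl c₀ m z.2 → z.2 m = 1 →
      τ m z.2 = 2 / 3 → r z.1 = 1 := by
    intro z hz hD hc hzm hτ
    obtain ⟨w, hw, hwD, hwc, hwm, hwτ⟩ := hcover 2 (2 / 3) (by norm_num)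
    have := hsep (2 / 3) (by norm_num) 2 1 hloc2 w z hw hz hwD hD hwc hc hwτ hτ (Or.inl hwm)
    rcases this with h | h
    · rw [hzm] at h; exact absurd h (by decide)
    · exact h
  -- the two closed sets covering the middle third
  have hcylc : IsClosed {z : (ℕ → ℝ) × Cant | Cyl c₀ m z.2} := by
    have : {z : (ℕ → ℝ) × Cant | Cyl c₀ m z.2}
        = ⋂ i, ⋂ (_ : i < m), {z : (ℕ → ℝ) × Cant | z.2 i = c₀ i} := by
      ext z; simp [Cyl]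
    rw [this]
    exact isClosed_iInter fun i => isClosed_iInter fun _ =>
      isClosed_eq ((continuous_apply i).comp continuous_snd) continuous_const
  have hclS : ∀ S : Set ℤ, IsClosed ((fun z : (ℕ → ℝ) × Cant => τ m z.2) ''
      {z | z.1 ∈ T ∧ Φ z ∈ D ∧ Cyl c₀ m z.2 ∧ z.2 m = 1 ∧ r z.1 ∈ S}) := by
    intro S
    have : {z : (ℕ → ℝ) × Cant | z.1 ∈ T ∧ Φ z ∈ D ∧ Cyl c₀ m z.2 ∧ z.2 m = 1 ∧ r z.1 ∈ S}
        = {z | z.1 ∈ T ∧ Φ z ∈ D} ∩ {z | Cyl c₀ m z.2} ∩ {z | z.2 m ∈ ({1} : Set (Fin 3))}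
          ∩ {z | z.1 ∈ T \ U ∧ r z.1 ∈ S} := by
      ext z
      simp only [mem_ofPred_eq, mem_inter_iff, mem_singleton_iff]
      constructor
      · rintro ⟨h1, h2, h3, h4, h5⟩
        exact ⟨⟨⟨⟨h1, h2⟩, h3⟩, h4⟩, ⟨h1, hmiss z h2 h3⟩, h5⟩
      · rintro ⟨⟨⟨⟨h1, h2⟩, h3⟩, h4⟩, h5, h6⟩
        exact ⟨h1, h2, h3, h4, h6⟩
    rw [this]
    have hc := ((hDt.inter hcylc).inter (hdig {1})).inter (hrcl S)
    exact (((isCompact_T.prod isCompact_univ).of_isClosed_subset hc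
      (fun w hw => ⟨hw.1.1.1.1, mem_univ _⟩)).image
        ((continuous_τ m).comp continuous_snd)).isClosed
  have hpc : IsPreconnected (Icc (1 / 3 : ℝ) (2 / 3)) := isPreconnected_Icc
  have key := isPreconnected_closed_iff.1 hpc _ _ (hclS {0}) (hclS {0}ᶜ)
  refine (fun hne => ?_ : (Icc (1 / 3 : ℝ) (2 / 3) ∩ (_ ∩ _)).Nonempty → False) (key ?_ ?_ ?_)
  · -- contradiction
    obtain ⟨s, hsI, ⟨z, hz, hzs⟩, ⟨z', hz', hzs'⟩⟩ := hne
    simp only [mem_ofPred_eq, mem_singleton_iff, mem_compl_iff] at hz hz' hzs hzs'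
    obtain ⟨a1, a2, a3, a4, a5⟩ := hz
    obtain ⟨b1, b2, b3, b4, b5⟩ := hz'
    rcases eq_or_lt_of_le hsI.1 with hs1 | hs1
    · exact b5 (hend1 z' b1 b2 b3 b4 (by rw [hzs', hs1]))
    rcases eq_or_lt_of_le hsI.2 with hs2 | hs2
    · have := hend2 z a1 a2 a3 a4 (by rw [hzs, hs2])
      rw [a5] at this
      exact absurd this (by norm_num)
    · have h := hsep s ⟨by linarith, by linarith⟩ 0 0 (hloc3 s ⟨hs1, hs2⟩) z z' a1 b1 a2 b2 a3 b3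
        hzs hzs' (Or.inr a5)
      rcases h with h | h
      · rw [b4] at h; exact absurd h (by decide)
      · exact b5 h
  · intro s hs
    obtain ⟨z, h1, h2, h3, h4, h5⟩ := hcover 1 s (by norm_num; exact hs)
    by_cases hr0 : r z.1 = 0
    · exact Or.inl ⟨z, ⟨h1, h2, h3, h4, hr0⟩, h5⟩
    · exact Or.inr ⟨z, ⟨h1, h2, h3, h4, hr0⟩, h5⟩
  · obtain ⟨z, h1, h2, h3, h4, h5⟩ := hcover 1 (1 / 3) (by norm_num)
    exact ⟨1 / 3, by norm_num, z, ⟨h1, h2, h3, h4, hend1 z h1 h2 h3 h4 h5⟩, h5⟩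
  · obtain ⟨z, h1, h2, h3, h4, h5⟩ := hcover 1 (2 / 3) (by norm_num)
    refine ⟨2 / 3, by norm_num, z, ⟨h1, h2, h3, h4, ?_⟩, h5⟩
    have := hend2 z h1 h2 h3 h4 h5
    simp [this]

end Pool.Agent.Lib.MP_1501ba_gt
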