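import Mathlib
import Pool.Agent.Lib.MP_1501ba_gt.Minimal

set_option autoImplicit false

/-! Assembly: `M` with the projection to the unit interval. -/

namespace Pool.Agent.Lib.MP_1501ba_gt

open Topology Filter Set

instance : CompactSpace ↥M := isCompact_iff_compactSpace.1 isCompact_M

lemma M_fst {p : P} (hp : p ∈ M) : p.1 ∈ Icc (0 : ℝ) 1 := by
  obtain ⟨z, -, rfl⟩ := hp
  exact ⟨τ_nonneg 0 z.2, τ_le_one 0 z.2⟩

/-- the projection -/
def proj : C(↥M, unitInterval) where
  toFun p := ⟨p.1.1, M_fst p.2⟩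
  continuous_toFun := Continuous.subtype_mk (continuous_fst.comp continuous_subtype_val) _

lemma proj_val (p : ↥M) : (proj p : ℝ) = p.1.1 := rfl

lemma proj_surjective : Function.Surjective proj := by
  intro t
  obtain ⟨p, hp, hpt⟩ := exists_K t.2
  exact ⟨⟨p, K_subset_M hp⟩, Subtype.ext hpt⟩

lemma isPreconnected_val {S : Set ↥M} : IsPreconnected (Subtype.val '' S) ↔ IsPreconnected S :=
  IsInducing.subtypeVal.isPreconnected_image

lemma proj_fibre (t : unitInterval) : IsPreconnected (proj ⁻¹' {t}) := by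
  rw [← isPreconnected_val]
  have : Subtype.val '' (proj ⁻¹' {t}) = M ∩ {p | p.1 = (t : ℝ)} := by
    ext p
    constructor
    · rintro ⟨w, hw, rfl⟩
      exact ⟨w.2, congrArg Subtype.val hw⟩
    · rintro ⟨hp, hpt⟩
      exact ⟨⟨p, hp⟩, Subtype.ext hpt, rfl⟩
  rw [this]
  exact isPreconnected_fibre t

/-- `K` and the fibres over `s`, `t`, as a subset of `M` -/
def bad (s t : unitInterval) : Set ↥M :=
  {p | p.1 ∈ K} ∪ proj ⁻¹' {s} ∪ proj ⁻¹' {t}

lemma isPreconnected_bad (s t : unitInterval) : IsPreconnected (bad s t) := by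
  rw [← isPreconnected_val]
  have : Subtype.val '' (bad s t)
      = K ∪ (M ∩ {p | p.1 = (s : ℝ)}) ∪ (M ∩ {p | p.1 = (t : ℝ)}) := by
    ext p
    constructor
    · rintro ⟨w, (hw | hw) | hw, rfl⟩
      · exact Or.inl (Or.inl hw)
      · exact Or.inl (Or.inr ⟨w.2, congrArg Subtype.val hw⟩)
      · exact Or.inr ⟨w.2, congrArg Subtype.val hw⟩
    · rintro ((hp | ⟨hp, hpt⟩) | ⟨hp, hpt⟩)
      · exact ⟨⟨p, K_subset_M hp⟩, Or.inl (Or.inl hp), rfl⟩
      · exact ⟨⟨p, hp⟩, Or.inl (Or.inr (Subtype.ext hpt)), rfl⟩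
      · exact ⟨⟨p, hp⟩, Or.inr (Subtype.ext hpt), rfl⟩
  rw [this]
  exact isPreconnected_union s.2 t.2

lemma isClosed_K : IsClosed K := (isCompact_range continuous_g).isClosed

lemma isClosed_bad (s t : unitInterval) : IsClosed (bad s t) := by
  refine ((isClosed_K.preimage continuous_subtype_val).union ?_).union ?_
  · exact isClosed_singleton.preimage proj.continuous
  · exact isClosed_singleton.preimage proj.continuous

instance : ConnectedSpace ↥M where
  isPreconnected_univ := by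
    refine isPreconnected_of_forall_pair fun x _ y _ => ?_
    exact ⟨bad (proj x) (proj y), subset_univ _, Or.inl (Or.inr rfl), Or.inr rfl,
      isPreconnected_bad _ _⟩
  toNonempty := ⟨⟨Φ (q (fun _ => 0), fun _ => 0), ⟨_, ⟨q_mem _, mem_univ _⟩, rfl⟩⟩⟩

lemma bad_ne_univ (s t : unitInterval) : bad s t ≠ univ := by
  intro h
  -- a third level
  obtain ⟨u, hus, hut⟩ : ∃ u : unitInterval, u ≠ s ∧ u ≠ t := by
    have hinf : (Icc (0 : ℝ) 1).Infinite := Icc_infinite zero_lt_one
    have hfin : ({(s : ℝ), (t : ℝ)} : Set ℝ).Finite := by simp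
    obtain ⟨u, hu1, hu⟩ := hinf.exists_notMem_finite hfin
    simp only [mem_insert_iff, mem_singleton_iff, not_or] at hu
    exact ⟨⟨u, hu1⟩, fun h => hu.1 (congrArg Subtype.val h), fun h => hu.2 (congrArg Subtype.val h)⟩
  obtain ⟨c, hc⟩ := exists_digits u.2
  have hmem : Φ (line 1, c) ∈ M := ⟨_, ⟨line_mem 1, mem_univ _⟩, rfl⟩
  have hin : (⟨Φ (line 1, c), hmem⟩ : ↥M) ∈ bad s t := by rw [h]; exact mem_univ _
  have hval : proj ⟨Φ (line 1, c), hmem⟩ = u := Subtype.ext hc
  rcases hin with (hin | hin) | hin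
  · obtain ⟨z, hz⟩ := hin
    have h3 : δ (q fun n => (z n).1) = δ (line 1) := congrArg (fun p : P => p.2.2.1) hz
    rw [(δ_eq_zero _).2 ⟨_, rfl⟩] at h3
    exact line_one_not_mem ((δ_eq_zero _).1 h3.symm)
  · exact hus (hval.symm.trans hin)
  · exact hut (hval.symm.trans hin)

lemma proj_minimal (D : Set ↥M) (hD : IsClosed D) (hne : D ≠ univ) (hsurj : proj '' D = univ) :
    ¬ ∀ t : unitInterval, IsPreconnected (D ∩ proj ⁻¹' {t}) := by
  intro hconn
  apply hne
  have hDc : IsClosed (Subtype.val '' D) := (hD.isCompact.image continuous_subtype_val).isClosed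
  have hsub : M ⊆ Subtype.val '' D := by
    refine minimal (Subtype.val '' D) ?_ hDc ?_ ?_
    · rintro _ ⟨w, -, rfl⟩; exact w.2
    · intro t ht
      have : (⟨t, ht⟩ : unitInterval) ∈ proj '' D := by rw [hsurj]; exact mem_univ _
      obtain ⟨w, hw, hwt⟩ := this
      exact ⟨w.1, ⟨w, hw, rfl⟩, congrArg Subtype.val hwt⟩
    · intro t ht
      have h1 := hconn ⟨t, ht⟩
      rw [← isPreconnected_val] at h1
      have : Subtype.val '' (D ∩ proj ⁻¹' {(⟨t, ht⟩ : unitInterval)})
          = Subtype.val '' D ∩ {p : P | p.1 = t} := by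
        ext p
        constructor
        · rintro ⟨w, ⟨hw, hw'⟩, rfl⟩
          exact ⟨⟨w, hw, rfl⟩, congrArg Subtype.val hw'⟩
        · rintro ⟨⟨w, hw, rfl⟩, hwt⟩
          exact ⟨w, ⟨hw, Subtype.ext hwt⟩, rfl⟩
      rwa [this] at h1
  refine eq_univ_of_forall fun w => ?_
  obtain ⟨w', hw', hww⟩ := hsub w.2
  rwa [← Subtype.ext hww]

end Pool.Agent.Lib.MP_1501ba_gt
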